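import Pool.Agent.W2helper92.Genus.Main

/-!
# A cubic toroidal graph without a circular embedding in the torus

Disproof of Q1. There is a simple cubic graph `G` with 16 vertices, cyclically 4-edge-connected (in
particular 3-connected and bridgeless), of genus one, such that in every embedding of `G` in the
torus some region has a perimeter which traverses an edge twice.

Embeddings in closed orientable surfaces with open discs as regions (for a connected graph all
embeddings in the surface of minimum genus are of this kind) are given by rotation systems; see the
definitions in `Pool.Agent.W2helper92.Genus.Defs`: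

* `RotationSystem G`: a permutation of the darts (oriented edges) of `G` which permutes the darts
  leaving a vertex in one cycle, for every vertex;
* `σ.face`: the permutation `d ↦` the dart following the reverse of `d` in the rotation; its orbits
  are the perimeters of the regions, `σ.Faces` is the set of its orbits;
* `σ.HasGenus g`: `|V| - |E| + |F| = 2 - 2 g`;
* `genus G`: the least genus of a rotation system;
* `σ.IsCircular`: no orbit of `σ.face` contains a dart together with its reverse, that is, no region
  traverses an edge twice.
-/

set_option autoImplicit false

namespace Pool.Agent.Results.MP_f8ee93_co.NonCircularTorus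

open Pool.Agent.W2helper92.Genus

/-- There is a connected bridgeless cubic graph `G` (simple, with 16 vertices, and such that every
set of at least two vertices whose complement has at least two vertices is left by at least four
edges) of genus one such that every embedding of `G` in the closed orientable surface of genus
`genus G = 1` has a region whose perimeter is not a circuit. -/
theorem result : ∃ G : SimpleGraph (Fin 16),
    G.Connected ∧ (∀ v, (G.neighborSet v).ncard = 3) ∧ (∀ e ∈ G.edgeSet, ¬ G.IsBridge e) ∧
    (∀ S : Set (Fin 16), 2 ≤ S.ncard → 2 ≤ Sᶜ.ncard →
      4 ≤ {e ∈ G.edgeSet | ∃ u ∈ S, ∃ v ∈ Sᶜ, e = s(u, v)}.ncard) ∧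
    genus G = 1 ∧ (∃ σ : RotationSystem G, σ.HasGenus 1) ∧
    ∀ σ : RotationSystem G, σ.HasGenus (genus G) → ∃ d : G.Dart, σ.face.SameCycle d d.symm := by
  refine ⟨G16, connected, fun v => ?_, fun e _ => bridgeless e, four_edges, genus_eq,
    ⟨rotSys bits0, (hasGenus_iff _ _).2 (by rw [faces_rotSys])⟩, fun σ hσ => ?_⟩
  · rw [Set.ncard_eq_toFinset_card', Set.toFinset_card, SimpleGraph.card_neighborSet_eq_degree]
    exact regular v
  · by_contra h
    push Not at h
    exact not_circular σ hσ h

end Pool.Agent.Results.MP_f8ee93_co.NonCircularTorus
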